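import Pool.Agent.Helper79.MI.Sec

/-!
# The integral identities on the mirror (project MP_a2630c_MI, module INT)
-/

open MeasureTheory Set Metric Real Filter Topology
open scoped RealInnerProductSpace ENNReal
open Pool.Agent.Helper16.Buoy (E cap IsEllipsoid Homothetic buoyancyBody)
open Pool.Agent.Helper73.HV (supp)
open Pool.Agent.Helper73.LR (CB vol GG Sol aff)
open Pool.Agent.Helper73.SY (CS Dat sg)

set_option linter.unusedSectionVars false

namespace Pool.Agent.Helper79.MI

open Pool.Agent.Helper73.MI Pool.Agent.Helper79.SY Pool.Agent.Helper65.LR Pool.Agent.Helper51.HV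

variable {n : ℕ} {K : Set (E n)} {δ lam : ℝ} {X : E n → E n} {t : E n → ℝ} {e : E n}

theorem inner_W_e (y : WW e) : inner ℝ (y : E n) e = (0 : ℝ) := by
  rw [real_inner_comm]
  exact inner_e_W y

theorem pj_W (y : WW e) : pj e (y : E n) = y :=
  Submodule.orthogonalProjectionOnto_mem_subspace_eq_self y

theorem pj_e : pj e e = 0 :=
  Submodule.orthogonalProjectionOnto_orthogonalComplement_singleton_eq_zero e

theorem pj_sum (s : ℝ) (y : WW e) : pj e (s • e + (y : E n)) = y := by
  rw [map_add, map_smul, pj_e, smul_zero, zero_add, pj_W]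

theorem inner_pj (κ : WW e) (x : E n) : inner ℝ κ (pj e x) = (inner ℝ (κ : E n) x : ℝ) :=
  Submodule.inner_orthogonalProjectionOnto_eq_of_mem_left κ x

theorem decomp (he : ‖e‖ = 1) (x : E n) : (inner ℝ e x : ℝ) • e + (pj e x : E n) = x := by
  have hx1 : x - (inner ℝ e x : ℝ) • e ∈ WW e := by
    rw [Submodule.mem_orthogonal_singleton_iff_inner_right, inner_sub_right, inner_smul_right,
      real_inner_self_eq_norm_sq, he]
    ring
  have h1 : pj e x = ⟨x - (inner ℝ e x : ℝ) • e, hx1⟩ := by
    have h2 := pj_sum (inner ℝ e x : ℝ) (⟨x - (inner ℝ e x : ℝ) • e, hx1⟩ : WW e)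
    rw [← h2]
    congr 1
    show x = (inner ℝ e x : ℝ) • e + (x - (inner ℝ e x : ℝ) • e)
    abel
  rw [h1]
  show (inner ℝ e x : ℝ) • e + (x - (inner ℝ e x : ℝ) • e) = x
  abel

theorem inner_u_e (he : ‖e‖ = 1) (v : WW e) : inner ℝ (e + (v : E n)) e = (1 : ℝ) := by
  rw [inner_add_left, real_inner_self_eq_norm_sq, he, inner_W_e]
  norm_num

theorem u_pos (he : ‖e‖ = 1) (v : WW e) : 0 < (inner ℝ (e + (v : E n)) e : ℝ) := by
  rw [inner_u_e he]
  exact one_pos

theorem norm_u (he : ‖e‖ = 1) (v : WW e) : ‖e + (v : E n)‖ = nn v := by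
  have h1 := norm_sl he v 1
  have h2 : sl e (v, 1) = e + (v : E n) := by
    unfold sl
    simp
  rw [h2] at h1
  unfold nn
  rw [← Real.sqrt_sq (norm_nonneg (e + (v : E n))), h1]
  norm_num

theorem nn_pos {V : Type*} [NormedAddCommGroup V] (v : V) : 0 < nn v := by
  unfold nn
  exact Real.sqrt_pos.2 (by positivity)

theorem cc_u (he : ‖e‖ = 1) (v y : WW e) (τ : ℝ) :
    cc e (e + (v : E n), τ) (y : E n) = τ - inner ℝ v y := by
  unfold cc
  have h1 : inner ℝ (e + (v : E n)) (y : E n) = (inner ℝ v y : ℝ) := by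
    rw [inner_add_left, inner_e_W, zero_add, Submodule.coe_inner]
  show (τ - inner ℝ (e + (v : E n)) (y : E n)) / inner ℝ (e + (v : E n)) e = _
  rw [h1, inner_u_e he, div_one]

theorem AA_u (he : ‖e‖ = 1) (v y : WW e) (τ : ℝ) :
    AA e (e + (v : E n), τ) (y : E n) = (τ - inner ℝ v y) • e + (y : E n) := by
  unfold AA
  rw [cc_u he]

/-- Geometry of the fibres, as used here. -/
structure Geo (K : Set (E n)) (e : E n) : Prop where
  fib : ∀ (s : ℝ) (y : WW e), s • e + (y : E n) ∈ K ↔
      (∃ s' : ℝ, s' • e + (y : E n) ∈ K) ∧ s ^ 2 ≤ FF K e y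
  int : ∀ (s : ℝ) (y : WW e), s • e + (y : E n) ∈ interior K ↔ y ∈ PD K e ∧ s ^ 2 < FF K e y
  rn : ∀ y, 0 ≤ RR K e y
  cont : Continuous (FF K e)
  zero : ∀ y, y ∉ PD K e → FF K e y = 0

theorem mem_Sv (hg : Geo K e) (he : ‖e‖ = 1) (v y : WW e) :
    AA e (e + (v : E n), lv t e v) (y : E n) ∈ interior K ↔ y ∈ Sv (FF K e) (lv t e) v := by
  rw [AA_u he, hg.int]
  unfold Sv Wf
  constructor
  · rintro ⟨_, h⟩
    show 0 < FF K e y - (lv t e v - inner ℝ v y) ^ 2
    linarith
  · intro h
    have h' : 0 < FF K e y - (lv t e v - inner ℝ v y) ^ 2 := h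
    refine ⟨?_, by linarith⟩
    by_contra hy
    rw [hg.zero y hy] at h'
    have := sq_nonneg (lv t e v - inner ℝ v y)
    linarith

theorem Wf_cont (hg : Geo K e) (v : WW e) : Continuous fun y => Wf (FF K e) (lv t e) v y := by
  unfold Wf
  have := hg.cont
  fun_prop

theorem Sv_open (hg : Geo K e) (v : WW e) : IsOpen (Sv (FF K e) (lv t e) v) :=
  isOpen_lt continuous_const (Wf_cont hg v)

/-- Section integrals are integrals over the set `Sv`. -/
theorem sec_eq (h : Dat K δ lam X t) (hg : Geo K e) (he : ‖e‖ = 1) (v : WW e) (φ : E n → ℝ) :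
    sec K e φ (e + (v : E n)) (t (e + (v : E n))) =
      ∫ y in Sv (FF K e) (lv t e) v, φ (AA e (e + (v : E n), lv t e v) (y : E n)) := by
  have hp := u_pos he v
  unfold sec
  rw [inner_u_e he, inv_one, one_mul, ← integral_indicator (Sv_open hg v).measurableSet]
  apply integral_congr_ae
  filter_upwards [sec_null h.cs.cb he (p := (e + (v : E n), lv t e v)) hp
    (int_level h (ne_zero_of_inner hp))] with y hy
  show cut K φ (AA e (e + (v : E n), lv t e v) (y : E n)) = _
  unfold cut
  by_cases hx : AA e (e + (v : E n), lv t e v) (y : E n) ∈ K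
  · have hi : AA e (e + (v : E n), lv t e v) (y : E n) ∈ interior K := by
      by_contra hi
      exact hy ⟨subset_closure hx, hi⟩
    rw [indicator_of_mem hx, indicator_of_mem ((mem_Sv hg he v y).1 hi)]
  · have hi : y ∉ Sv (FF K e) (lv t e) v := fun hh =>
      hx (interior_subset ((mem_Sv hg he v y).2 hh))
    rw [indicator_of_notMem hx, indicator_of_notMem hi]

/-- Moment of a symmetric interval above a level. -/
theorem int_sym {R c : ℝ} (hR : 0 ≤ R) : ∫ s in Ioi c, (Icc (-R) R).indicator (fun s => s) s =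
    if 0 < R ^ 2 - c ^ 2 then (R ^ 2 - c ^ 2) / 2 else 0 := by
  rw [setIntegral_indicator measurableSet_Icc]
  rcases le_or_gt R c with h1 | h1
  · have h2 : Ioi c ∩ Icc (-R) R = ∅ := by
      ext s
      simp only [mem_inter_iff, mem_Ioi, mem_Icc, mem_empty_iff_false, iff_false]
      rintro ⟨h3, _, h4⟩
      linarith
    rw [h2, setIntegral_empty, if_neg]
    push Not
    nlinarith
  · rcases lt_or_ge c (-R) with h2 | h2
    · have h3 : Ioi c ∩ Icc (-R) R = Icc (-R) R := by
        apply inter_eq_right.2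
        intro s hs
        exact lt_of_lt_of_le h2 hs.1
      rw [h3, integral_Icc_eq_integral_Ioc, ← intervalIntegral.integral_of_le (by linarith),
        integral_id, if_neg]
      · ring
      · push Not
        nlinarith
    · have h3 : Ioi c ∩ Icc (-R) R = Ioc c R := by
        ext s
        simp only [mem_inter_iff, mem_Ioi, mem_Icc, mem_Ioc]
        constructor
        · rintro ⟨h4, _, h5⟩
          exact ⟨h4, h5⟩
        · rintro ⟨h4, h5⟩
          exact ⟨h4, by linarith, h5⟩
      rw [h3, ← intervalIntegral.integral_of_le h1.le, integral_id]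
      split_ifs with h4
      · rfl
      · push Not at h4
        have h5 : 0 ≤ R ^ 2 - c ^ 2 := by nlinarith
        have h6 : R ^ 2 - c ^ 2 = 0 := le_antisymm h4 h5
        rw [h6]
        simp

theorem mom_eq (h : Dat K δ lam X t) (hg : Geo K e) (he : ‖e‖ = 1) (v : WW e) :
    2 * lam * xx X e v = ∫ y in Sv (FF K e) (lv t e) v, Wf (FF K e) (lv t e) v y := by
  have hp := u_pos he v
  have hu := ne_zero_of_inner hp
  have hK := h.cs.cb
  have h1 : lam * xx X e v = ∫ x in cap K (e + (v : E n)) (t (e + (v : E n))), (inner ℝ e x : ℝ) := by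
    have h4 : IntegrableOn (fun x : E n => x) (cap K (e + (v : E n)) (t (e + (v : E n)))) :=
      (int_on hK.comp continuous_id).mono_set (cap_subset _ _)
    rw [integral_inner h4, h.mom _ hu, inner_smul_right]
    rfl
  have h2 := (cap_fubini hK.comp he (φ := fun x : E n => (inner ℝ e x : ℝ)) (by fun_prop)
    (p := (e + (v : E n), t (e + (v : E n)))) hp).2
  have h3 : ∀ y : WW e, GY K e (fun x : E n => (inner ℝ e x : ℝ)) y
      (cc e (e + (v : E n), t (e + (v : E n))) (y : E n)) =
      (1 / 2) * (Sv (FF K e) (lv t e) v).indicator (fun y => Wf (FF K e) (lv t e) v y) y := by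
    intro y
    unfold GY
    rw [cc_u he]
    have h4 : ∀ s : ℝ, cut K (fun x : E n => (inner ℝ e x : ℝ)) (sl e (y, s)) =
        (Icc (-RR K e y) (RR K e y)).indicator (fun s => s) s := by
      intro s
      have hval : (inner ℝ e (s • e + (y : E n)) : ℝ) = s := by
        rw [inner_add_right, inner_smul_right, real_inner_self_eq_norm_sq, he, inner_e_W]
        ring
      have hIcc : s ∈ Icc (-RR K e y) (RR K e y) ↔ s ^ 2 ≤ FF K e y := by
        unfold FF
        rw [mem_Icc, ← abs_le, sq_le_sq, abs_of_nonneg (hg.rn y)]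
      unfold cut sl
      by_cases hx : s • e + (y : E n) ∈ K
      · rw [indicator_of_mem hx, indicator_of_mem (hIcc.2 ((hg.fib s y).1 hx).2)]
        exact hval
      · rw [indicator_of_notMem hx]
        by_cases hs : s ^ 2 ≤ FF K e y
        · rw [indicator_of_mem (hIcc.2 hs)]
          by_cases hy : y ∈ PD K e
          · have hy'' : y ∈ {y : WW e | ∃ s : ℝ, s • e + (y : E n) ∈ K} := interior_subset hy
            have hy' : ∃ s' : ℝ, s' • e + (y : E n) ∈ K := hy''
            exact (hx ((hg.fib s y).2 ⟨hy', hs⟩)).elim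
          · rw [hg.zero y hy] at hs
            have : s = 0 := by nlinarith
            rw [this]
        · rw [indicator_of_notMem fun hh => hs (hIcc.1 hh)]
    simp only [h4]
    rw [int_sym (hg.rn y)]
    have h5 : RR K e y ^ 2 - (t (e + (v : E n)) - inner ℝ v y) ^ 2 =
        Wf (FF K e) (lv t e) v y := rfl
    rw [h5]
    by_cases h6 : 0 < Wf (FF K e) (lv t e) v y
    · rw [if_pos h6, indicator_of_mem (show y ∈ Sv (FF K e) (lv t e) v from h6)]
      ring
    · rw [if_neg h6, indicator_of_notMem (show y ∉ Sv (FF K e) (lv t e) v from h6), mul_zero]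
  rw [mul_assoc, h1, h2]
  simp only [h3]
  rw [integral_const_mul, integral_indicator (Sv_open hg v).measurableSet]
  ring

/-- (INT) The two integral identities and the bounds for the sections. -/
theorem int_main (hsec : S_sec) (hhes : S_hes) (hgeo : S_geo) : S_int := by
  intro n K δ lam X t e hC he hsym
  have h := hC.dat
  have hK := h.cs.cb
  have hg : Geo K e := by
    obtain ⟨g1, g2, g3, g4, g5, g6, g7, g8, g9⟩ := hgeo h he hsym
    exact ⟨g1, g2, g3, g6, g8⟩
  obtain ⟨J1, J1c, J1e, J1h, J1p⟩ := hsec hC (fun _ => (1 : ℝ)) continuous_const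
  -- the sphere
  have hsph : IsCompact (sphere (0 : E n) 1) := isCompact_sphere 0 1
  have hsub : sphere (0 : E n) 1 ⊆ {0}ᶜ := by
    intro u hu hu0
    rw [mem_sphere_zero_iff_norm, show u = 0 from hu0, norm_zero] at hu
    exact zero_ne_one hu
  obtain ⟨C1, hC1⟩ := hsph.exists_bound_of_continuousOn (J1c.mono hsub)
  have hunit : ∀ v : WW e, (nn v)⁻¹ • (e + (v : E n)) ∈ sphere (0 : E n) 1 := by
    intro v
    rw [mem_sphere_zero_iff_norm, norm_smul, norm_inv, norm_u he, Real.norm_eq_abs,
      abs_of_pos (nn_pos v), inv_mul_cancel₀ (nn_pos v).ne']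
  have hhom : ∀ J : E n → ℝ, (∀ (u : E n) (c : ℝ), u ≠ 0 → 0 < c → J (c • u) = c⁻¹ * J u) →
      ∀ v : WW e, nn v * J (e + (v : E n)) = J ((nn v)⁻¹ • (e + (v : E n))) := by
    intro J hJ v
    rw [hJ _ _ (ne_zero_of_inner (u_pos he v)) (inv_pos.2 (nn_pos v)), inv_inv]
  have hJ1 : ∀ v : WW e, J1 (e + (v : E n)) = (volume (Sv (FF K e) (lv t e) v)).toReal := by
    intro v
    rw [J1e e _ he (u_pos he v), sec_eq h hg he, setIntegral_const, smul_eq_mul, mul_one]
    rfl
  have he1 : e ∈ sphere (0 : E n) 1 := by rw [mem_sphere_zero_iff_norm]; exact he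
  have hC10 : 0 ≤ C1 := (norm_nonneg _).trans (hC1 e he1)
  refine ⟨fun v κ => ?_, fun v => mom_eq h hg he v, ⟨C1, fun v => ?_⟩, ?_⟩
  · obtain ⟨g, hgz⟩ := hhes hC e (e + (v : E n)) he (u_pos he v)
    refine ⟨inner ℝ (κ : E n) g, ?_⟩
    have h1 : (inner ℝ κ (PV X e v κ) : ℝ) =
        inner ℝ (κ : E n) (fderiv ℝ X (e + (v : E n)) (κ : E n)) := by
      unfold PV
      exact inner_pj κ _
    rw [h1, hgz, sec_eq h hg he]
    congr 1
    funext y
    have h2 : (inner ℝ (κ : E n) (AA e (e + (v : E n), lv t e v) (y : E n) - g) : ℝ) =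
        inner ℝ κ y - inner ℝ (κ : E n) g := by
      rw [AA_u he, inner_sub_right, inner_add_right, inner_smul_right, inner_W_e, mul_zero,
        zero_add, Submodule.coe_inner]
    rw [h2]
    ring
  · rw [← hJ1, hhom J1 J1h]
    exact (le_abs_self _).trans (hC1 _ (hunit v))
  · -- lower bound on a compact set
    set φ : E n → ℝ := fun x => max (FF K e (pj e x) - (inner ℝ e x) ^ 2) 0 with hφ
    have hφc : Continuous φ := by
      have h1 := hg.cont
      have h2 : Continuous fun x : E n => FF K e (pj e x) := h1.comp (pj e).continuous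
      have h3 : Continuous fun x : E n => (inner ℝ e x : ℝ) := by fun_prop
      exact (h2.sub (h3.pow 2)).max continuous_const
    obtain ⟨J0, J0c, J0e, J0h, J0p⟩ := hsec hC φ hφc
    have hJ0pos : ∀ u ∈ sphere (0 : E n) 1, 0 < J0 u := by
      intro u hu
      have hu0 : u ≠ 0 := hsub hu
      refine J0p (fun x _ => le_max_right _ _) u hu0 ?_
      obtain ⟨x, hx, hxu⟩ := int_level h hu0
      refine ⟨x, hx, hxu, ?_⟩
      have h1 : (inner ℝ e x : ℝ) • e + (pj e x : E n) ∈ interior K := by
        rw [decomp he]; exact hx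
      have h2 := ((hg.int _ _).1 h1).2
      exact lt_of_lt_of_le (by linarith) (le_max_left _ _)
    obtain ⟨u0, hu0, hmin⟩ := hsph.exists_isMinOn ⟨e, he1⟩ (J0c.mono hsub)
    set c0 : ℝ := J0 u0 with hc0
    have hc0pos : 0 < c0 := hJ0pos u0 hu0
    set ε : ℝ := c0 / (2 * (C1 + 1)) with hε
    have hεpos : 0 < ε := by positivity
    have hεC : ε * C1 ≤ c0 / 2 := by
      rw [hε, div_mul_eq_mul_div, div_le_div_iff₀ (by positivity) (by norm_num)]
      nlinarith
    set B : Set (E n) := K ∩ {x | ε ≤ φ x} with hB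
    have hBc : IsCompact B := hK.comp.inter_right (isClosed_le continuous_const hφc)
    refine ⟨pj e '' B, c0 / 2, hBc.image (pj e).continuous, ?_, by positivity, fun v => ?_⟩
    · rintro y ⟨x, ⟨hxK, hxε⟩, rfl⟩
      have h1 : ε ≤ φ x := hxε
      by_contra hy
      have h2 : φ x = 0 := by
        rw [hφ]
        simp only
        rw [hg.zero _ hy, max_eq_right]
        have := sq_nonneg (inner ℝ e x : ℝ)
        linarith
      linarith
    · set S := Sv (FF K e) (lv t e) v with hS
      have hSm : MeasurableSet S := (Sv_open hg v).measurableSet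
      have hQm : MeasurableSet (pj e '' B) := (hBc.image (pj e).continuous).measurableSet
      have hφS : ∀ y ∈ S, φ (AA e (e + (v : E n), lv t e v) (y : E n)) =
          Wf (FF K e) (lv t e) v y := by
        intro y hy
        have hy' : 0 < Wf (FF K e) (lv t e) v y := hy
        rw [hφ, AA_u he]
        simp only
        rw [pj_sum, inner_add_right, inner_smul_right, real_inner_self_eq_norm_sq, he, inner_e_W]
        have h1 : FF K e y - ((lv t e v - inner ℝ v y) * 1 ^ 2 + 0) ^ 2 =
            Wf (FF K e) (lv t e) v y := by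
          unfold Wf
          ring
        rw [h1, max_eq_left hy'.le]
      have hJ0 : J0 (e + (v : E n)) = ∫ y in S, Wf (FF K e) (lv t e) v y := by
        rw [J0e e _ he (u_pos he v), sec_eq h hg he]
        exact setIntegral_congr_fun hSm hφS
      have hWint : IntegrableOn (fun y => Wf (FF K e) (lv t e) v y) S := by
        have h1 := cutAA_int hK.comp he hφc (e + (v : E n), lv t e v)
        have h2 := h1.integrableOn (s := S)
        refine h2.congr_fun ?_ hSm
        intro y hy
        simp only
        rw [← hφS y hy]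
        unfold cut
        rw [indicator_of_mem (interior_subset ((mem_Sv hg he v y).2 hy))]
      have hvolS : volume S ≠ ⊤ := by
        have h1 := (cutAA_int hK.comp he (continuous_const (y := (1 : ℝ)))
          (e + (v : E n), lv t e v)).integrableOn (s := S)
        have h2 : IntegrableOn (fun _ : WW e => (1 : ℝ)) S := by
          refine h1.congr_fun ?_ hSm
          intro y hy
          simp only
          unfold cut
          rw [indicator_of_mem (interior_subset ((mem_Sv hg he v y).2 hy))]
        rw [integrableOn_const_iff] at h2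
        rcases h2 with h2 | h2
        · exact (one_ne_zero (enorm_eq_zero.1 h2)).elim
        · exact h2.ne
      have hone : IntegrableOn (fun _ : WW e => (ε : ℝ)) S := by
        rw [integrableOn_const_iff]
        exact Or.inr hvolS.lt_top
      have hle : J0 (e + (v : E n)) - ε * J1 (e + (v : E n)) ≤
          ∫ y in S ∩ (pj e '' B), Wf (FF K e) (lv t e) v y := by
        rw [← setIntegral_indicator hQm, hJ0, hJ1, ← hS]
        have h1 : ε * (volume S).toReal = ∫ _y in S, ε := by
          rw [setIntegral_const, smul_eq_mul, mul_comm]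
          rfl
        rw [h1, ← integral_sub hWint hone]
        apply setIntegral_mono_on (hWint.sub hone) (hWint.indicator hQm) hSm
        intro y hy
        show Wf (FF K e) (lv t e) v y - ε ≤ _
        by_cases hyQ : y ∈ pj e '' B
        · rw [indicator_of_mem hyQ]
          linarith
        · rw [indicator_of_notMem hyQ]
          by_contra hcon
          push Not at hcon
          apply hyQ
          refine ⟨AA e (e + (v : E n), lv t e v) (y : E n),
            ⟨interior_subset ((mem_Sv hg he v y).2 hy), ?_⟩, ?_⟩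
          · show ε ≤ φ _
            rw [hφS y hy]
            linarith
          · rw [AA_u he, pj_sum]
      have h5 : c0 ≤ nn v * J0 (e + (v : E n)) := by
        rw [hhom J0 J0h]
        exact hmin (hunit v)
      have h6 : nn v * J1 (e + (v : E n)) ≤ C1 := by
        rw [hhom J1 J1h]
        exact (le_abs_self _).trans (hC1 _ (hunit v))
      have h7 := mul_le_mul_of_nonneg_left hle (nn_pos v).le
      have h8 : ε * (nn v * J1 (e + (v : E n))) ≤ ε * C1 :=
        mul_le_mul_of_nonneg_left h6 hεpos.le
      have h9 : nn v * (J0 (e + (v : E n)) - ε * J1 (e + (v : E n))) =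
          nn v * J0 (e + (v : E n)) - ε * (nn v * J1 (e + (v : E n))) := by ring
      rw [h9] at h7
      linarith

end Pool.Agent.Helper79.MI
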