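import Pool.Agent.Helper73.MI.Stmts

/-!
# Section integrals and the inertia formula (project MP_a2630c_MI, modules SEC and HES)
-/

open MeasureTheory Set Metric Real Filter Topology
open scoped RealInnerProductSpace ENNReal
open Pool.Agent.Helper16.Buoy (E cap IsEllipsoid Homothetic buoyancyBody)
open Pool.Agent.Helper73.HV (supp)
open Pool.Agent.Helper73.LR (CB vol GG Sol aff)
open Pool.Agent.Helper73.SY (CS Dat sg)

set_option linter.unusedSectionVars false

namespace Pool.Agent.Helper79.MI

open Pool.Agent.Helper73.MI Pool.Agent.Helper79.SY Pool.Agent.Helper65.LR Pool.Agent.Helper51.HV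

variable {n : ℕ} {K : Set (E n)} {δ lam : ℝ} {X : E n → E n} {t : E n → ℝ} {e : E n}

theorem t_eq_tt (h : Dat K δ lam X t) {u : E n} (hu : u ≠ 0) : t u = tt K δ u :=
  level_uniq h.cs hu (h.tvol u hu) (tt_vol h.cs hu)

theorem X_eq_XX (h : Dat K δ lam X t) {u : E n} (hu : u ≠ 0) : X u = XX K δ lam u := by
  have h1 := h.mom u hu
  rw [t_eq_tt h hu, XX_mom h.cs] at h1
  have h2 := congrArg (fun z => lam⁻¹ • z) h1
  simp only [smul_smul, inv_mul_cancel₀ h.cs.lpos.ne', one_smul] at h2
  exact h2.symm

/-- (DTC) Differentiability. -/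
theorem dtc : S_dtc := by
  intro n K δ lam X t _ h
  refine ⟨h, fun u hu => ?_, fun u hu => ?_⟩
  · refine (XX_C1 h.cs hu).congr_of_eventuallyEq ?_
    filter_upwards [isOpen_compl_singleton.mem_nhds hu] with v hv
    exact X_eq_XX h hv
  · refine (tt_C1 h.cs hu).congr_of_eventuallyEq ?_
    filter_upwards [isOpen_compl_singleton.mem_nhds hu] with v hv
    exact t_eq_tt h hv

/-- Levels are homogeneous. -/
theorem t_smul (h : Dat K δ lam X t) {u : E n} (hu : u ≠ 0) {c : ℝ} (hc : 0 < c) :
    t (c • u) = c * t u := by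
  have hcu : c • u ≠ 0 := smul_ne_zero hc.ne' hu
  apply level_uniq h.cs hcu (h.tvol _ hcu)
  have h1 : cap K (c • u) (c * t u) = cap K u (t u) := by
    ext x
    constructor
    · rintro ⟨hx, hx2⟩
      have h2 : c * t u ≤ inner ℝ (c • u) x := hx2
      rw [inner_smul_left, conj_trivial] at h2
      exact ⟨hx, le_of_mul_le_mul_left h2 hc⟩
    · rintro ⟨hx, hx2⟩
      have h2 : t u ≤ inner ℝ u x := hx2
      refine ⟨hx, ?_⟩
      show c * t u ≤ inner ℝ (c • u) x
      rw [inner_smul_left, conj_trivial]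
      exact mul_le_mul_of_nonneg_left h2 hc.le
  rw [h1]
  exact h.tvol u hu

/-- The hyperplane of level `t u` crosses the interior. -/
theorem int_level (h : Dat K δ lam X t) {u : E n} (hu : u ≠ 0) :
    ∃ x ∈ interior K, inner ℝ u x = t u :=
  exists_int_level h.cs.cb (h.tlo u hu) (h.tup u hu)

theorem ne_zero_of_inner {u : E n} (h : 0 < (inner ℝ u e : ℝ)) : u ≠ 0 := by
  rintro rfl
  rw [inner_zero_left] at h
  exact lt_irrefl _ h

/-- The unit vector in the direction of `u`. -/
theorem unit_of {u : E n} (hu : u ≠ 0) : ‖(‖u‖⁻¹ • u)‖ = 1 ∧ inner ℝ u (‖u‖⁻¹ • u) = ‖u‖ := by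
  have hun : 0 < ‖u‖ := norm_pos_iff.2 hu
  constructor
  · rw [norm_smul, norm_inv, norm_norm, inv_mul_cancel₀ hun.ne']
  · rw [inner_smul_right, real_inner_self_eq_norm_sq]
    field_simp

/-- Functions cut off outside `K` are integrable on the sections. -/
theorem cutAA_int (hK : IsCompact K) (he : ‖e‖ = 1) {φ : E n → ℝ} (hφ : Continuous φ)
    (p : E n × ℝ) : Integrable fun y : WW e => cut K φ (AA e p (y : E n)) := by
  obtain ⟨R, hR⟩ := hK.isBounded.exists_norm_le
  obtain ⟨C, hC0, hC⟩ := cut_bound hK hφ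
  have hc : Continuous fun y : WW e => AA e p (y : E n) := (AA_cont e p).comp continuous_subtype_val
  have hb : Integrable ((closedBall (0 : WW e) R).indicator fun _ => C) := by
    rw [integrable_indicator_iff measurableSet_closedBall]
    exact continuous_const.continuousOn.integrableOn_compact (isCompact_closedBall _ _)
  refine hb.mono' ((cut_sm hK hφ).comp_measurable hc.measurable).aestronglyMeasurable
    (Filter.Eventually.of_forall fun y => ?_)
  by_cases hy : ‖y‖ ≤ R
  · rw [indicator_of_mem (by simpa using hy)]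
    exact hC _
  · push Not at hy
    have h0 : cut K φ (AA e p (y : E n)) = 0 := cut_zero hR he hy _
    rw [h0, indicator_of_notMem (by simpa using hy), norm_zero]

/-- The derivative of the cap integral in terms of section integrals. -/
theorem DF_int (hK : CB K) (he : ‖e‖ = 1) {φ : E n → ℝ} (hφ : Continuous φ) {u : E n} {τ : ℝ}
    (hp : 0 < (inner ℝ u e : ℝ)) (hi : ∃ x ∈ interior K, inner ℝ u x = τ) (z : E n) (s : ℝ) :
    (∫ y : WW e, DF K e φ (u, τ) (y : E n)) (z, s) =
      sec K e (fun x => (inner ℝ z x - s) * φ x) u τ := by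
  rw [ContinuousLinearMap.integral_apply (cap_fderiv hK he hφ hp hi).1]
  unfold sec
  rw [← integral_const_mul]
  congr 1
  funext y
  rw [DF_apply, La_apply]
  unfold cut
  by_cases hx : AA e (u, τ) (y : E n) ∈ K
  · rw [indicator_of_mem hx, indicator_of_mem hx]
    simp only [smul_eq_mul]
    rw [real_inner_comm z (AA e (u, τ) (y : E n))]
    ring
  · rw [indicator_of_notMem hx, indicator_of_notMem hx]
    simp

theorem sec_add (hK : IsCompact K) (he : ‖e‖ = 1) {φ ψ : E n → ℝ} (hφ : Continuous φ)
    (hψ : Continuous ψ) (u : E n) (τ : ℝ) :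
    sec K e (fun x => φ x + ψ x) u τ = sec K e φ u τ + sec K e ψ u τ := by
  unfold sec
  rw [← mul_add, ← integral_add (cutAA_int hK he hφ _) (cutAA_int hK he hψ _)]
  congr 2
  funext y
  unfold cut
  by_cases hx : AA e (u, τ) (y : E n) ∈ K
  · rw [indicator_of_mem hx, indicator_of_mem hx, indicator_of_mem hx]
  · rw [indicator_of_notMem hx, indicator_of_notMem hx, indicator_of_notMem hx, add_zero]

theorem sec_mul (c : ℝ) (φ : E n → ℝ) (u : E n) (τ : ℝ) :
    sec K e (fun x => c * φ x) u τ = c * sec K e φ u τ := by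
  unfold sec
  rw [mul_left_comm]
  congr 1
  rw [← integral_const_mul]
  congr 1
  funext y
  unfold cut
  by_cases hx : AA e (u, τ) (y : E n) ∈ K
  · rw [indicator_of_mem hx, indicator_of_mem hx]
  · rw [indicator_of_notMem hx, indicator_of_notMem hx, mul_zero]

/-- Positivity of section integrals. -/
theorem sec_pos (hK : CB K) (he : ‖e‖ = 1) {φ : E n → ℝ} (hφ : Continuous φ)
    (h0 : ∀ x ∈ K, 0 ≤ φ x) {u : E n} {τ : ℝ} (hp : 0 < (inner ℝ u e : ℝ))
    (hi : ∃ x ∈ interior K, inner ℝ u x = τ ∧ 0 < φ x) : 0 < sec K e φ u τ := by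
  obtain ⟨x, hx, hxp, hxφ⟩ := hi
  unfold sec
  apply mul_pos (inv_pos.2 hp)
  have hc : Continuous fun y : WW e => AA e (u, τ) (y : E n) :=
    (AA_cont e _).comp continuous_subtype_val
  have hnn : ∀ y : WW e, 0 ≤ cut K φ (AA e (u, τ) (y : E n)) := by
    intro y
    unfold cut
    by_cases hy : AA e (u, τ) (y : E n) ∈ K
    · rw [indicator_of_mem hy]
      exact h0 _ hy
    · rw [indicator_of_notMem hy]
  rw [integral_pos_iff_support_of_nonneg hnn (cutAA_int hK.comp he hφ _)]
  have hx1 : x - (inner ℝ e x : ℝ) • e ∈ WW e := by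
    rw [Submodule.mem_orthogonal_singleton_iff_inner_right, inner_sub_right, inner_smul_right,
      real_inner_self_eq_norm_sq, he]
    ring
  set y1 : WW e := ⟨x - (inner ℝ e x : ℝ) • e, hx1⟩ with hy1'
  have hxA : AA e (u, τ) (y1 : E n) = x := by
    have h1 : cc e (u, τ) (y1 : E n) = inner ℝ e x := by
      unfold cc
      rw [div_eq_iff hp.ne']
      show τ - inner ℝ u (x - (inner ℝ e x : ℝ) • e) = _
      rw [inner_sub_right, inner_smul_right, hxp]
      ring
    unfold AA
    rw [h1]
    show (inner ℝ e x : ℝ) • e + (x - (inner ℝ e x : ℝ) • e) = x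
    abel
  have hO : IsOpen {y : WW e | AA e (u, τ) (y : E n) ∈ interior K ∧
      0 < φ (AA e (u, τ) (y : E n))} :=
    (isOpen_interior.preimage hc).inter (isOpen_lt continuous_const (hφ.comp hc))
  have hpos := hO.measure_pos (volume : Measure (WW e)) ⟨y1, by rw [hxA]; exact hx, by
    rw [hxA]; exact hxφ⟩
  refine hpos.trans_le (measure_mono ?_)
  rintro y ⟨hy1, hy2⟩
  show cut K φ (AA e (u, τ) (y : E n)) ≠ 0
  unfold cut
  rw [indicator_of_mem (interior_subset hy1)]
  exact hy2.ne'

/-- The section integral as a function of the normal only. -/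
noncomputable def JJ (K : Set (E n)) (t : E n → ℝ) (φ : E n → ℝ) (u : E n) : ℝ :=
  -(fderiv ℝ (fun p : E n × ℝ => ∫ x in cap K p.1 p.2, φ x) (u, t u)) (0, 1)

theorem JJ_eq (h : Dat K δ lam X t) (he : ‖e‖ = 1) {φ : E n → ℝ} (hφ : Continuous φ) {u : E n}
    (hp : 0 < (inner ℝ u e : ℝ)) : JJ K t φ u = sec K e φ u (t u) := by
  have hu := ne_zero_of_inner hp
  have h1 := (cap_fderiv h.cs.cb he hφ (p := (u, t u)) hp (int_level h hu)).2
  unfold JJ
  rw [h1.fderiv, DF_int h.cs.cb he hφ hp (int_level h hu)]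
  have h2 : (fun x : E n => (inner ℝ (0 : E n) x - 1) * φ x) = fun x => (-1) * φ x := by
    funext x
    rw [inner_zero_left]
    ring
  rw [h2, sec_mul]
  ring

/-- (SEC) Section integrals. -/
theorem sec_main : S_sec := by
  intro n K δ lam X t hC φ hφ
  have h := hC.dat
  refine ⟨JJ K t φ, ?_, fun e u he hp => JJ_eq h he hφ hp, ?_, ?_⟩
  · intro u0 hu0
    have hu0' : u0 ≠ 0 := hu0
    apply ContinuousAt.continuousWithinAt
    obtain ⟨he, hin⟩ := unit_of hu0'
    set e : E n := ‖u0‖⁻¹ • u0 with he'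
    have hun : 0 < ‖u0‖ := norm_pos_iff.2 hu0'
    have hp : 0 < (inner ℝ u0 e : ℝ) := by rw [hin]; exact hun
    have h1 := DF_contAt h.cs.cb he hφ (p := (u0, t u0)) hp (int_level h hu0')
    have h2 : ContinuousAt (fun v : E n => ((v, t v) : E n × ℝ)) u0 :=
      continuousAt_id.prodMk (h.tc.continuousAt (isOpen_compl_singleton.mem_nhds hu0))
    have h3 : ContinuousAt (fun v : E n => ∫ y : WW e, DF K e φ (v, t v) (y : E n)) u0 :=
      ContinuousAt.comp (f := fun v : E n => ((v, t v) : E n × ℝ))
        (g := fun p : E n × ℝ => ∫ y : WW e, DF K e φ p (y : E n)) h1 h2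
    have h4 : ContinuousAt (fun v : E n =>
        -(∫ y : WW e, DF K e φ (v, t v) (y : E n)) ((0, 1) : E n × ℝ)) u0 :=
      (h3.clm_apply continuousAt_const).neg
    refine h4.congr ?_
    have h5 : IsOpen {v : E n | 0 < (inner ℝ v e : ℝ)} := isOpen_lt continuous_const (by fun_prop)
    filter_upwards [h5.mem_nhds hp] with v hv
    have hv0 := ne_zero_of_inner hv
    unfold JJ
    rw [(cap_fderiv h.cs.cb he hφ (p := (v, t v)) hv (int_level h hv0)).2.fderiv]
  · intro u c hu hc
    obtain ⟨he, hin⟩ := unit_of hu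
    set e : E n := ‖u‖⁻¹ • u with he'
    have hun : 0 < ‖u‖ := norm_pos_iff.2 hu
    have hp : 0 < (inner ℝ u e : ℝ) := by rw [hin]; exact hun
    have hp2 : 0 < (inner ℝ (c • u) e : ℝ) := by
      rw [inner_smul_left, conj_trivial]
      exact mul_pos hc hp
    rw [JJ_eq h he hφ hp, JJ_eq h he hφ hp2, t_smul h hu hc]
    unfold sec
    have h1 : ∀ y : WW e, AA e (c • u, c * t u) (y : E n) = AA e (u, t u) (y : E n) := by
      intro y
      unfold AA cc
      have h2 : (c * t u - inner ℝ (c • u) (y : E n)) / inner ℝ (c • u) e =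
          (t u - inner ℝ u (y : E n)) / inner ℝ u e := by
        rw [inner_smul_left, inner_smul_left, conj_trivial, ← mul_sub,
          mul_div_mul_left _ _ hc.ne']
      simp only [h2]
    simp only [h1]
    rw [inner_smul_left, conj_trivial, mul_inv]
    ring
  · intro h0 u hu hx
    obtain ⟨he, hin⟩ := unit_of hu
    set e : E n := ‖u‖⁻¹ • u with he'
    have hun : 0 < ‖u‖ := norm_pos_iff.2 hu
    have hp : 0 < (inner ℝ u e : ℝ) := by rw [hin]; exact hun
    rw [JJ_eq h he hφ hp]
    exact sec_pos h.cs.cb he hφ h0 hp hx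

/-- (HES) The second derivative of the support function is the inertia of the section. -/
theorem hes : S_hes := by
  intro n K δ lam X t hC e u he hp
  have h := hC.dat
  have hK := h.cs.cb
  have hu := ne_zero_of_inner hp
  have hi := int_level h hu
  set τ := t u with hτ
  -- section of 1
  set s1 : ℝ := sec K e (fun _ => 1) u τ with hs1
  have hs1pos : 0 < s1 := by
    obtain ⟨x, hx, hxu⟩ := hi
    exact sec_pos hK he continuous_const (fun _ _ => zero_le_one) hp ⟨x, hx, hxu, one_pos⟩
  -- the centre of gravity of the section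
  set m : E n → ℝ := fun z => sec K e (fun x => inner ℝ z x) u τ with hm
  have hmadd : ∀ z z', m (z + z') = m z + m z' := by
    intro z z'
    rw [hm]
    simp only [inner_add_left]
    exact sec_add hK.comp he (by fun_prop) (by fun_prop) u τ
  have hmsmul : ∀ (c : ℝ) z, m (c • z) = c * m z := by
    intro c z
    rw [hm]
    simp only [inner_smul_left, conj_trivial]
    exact sec_mul c _ u τ
  set ml : E n →ₗ[ℝ] ℝ :=
    { toFun := fun z => s1⁻¹ * m z
      map_add' := fun z z' => by
        show s1⁻¹ * m (z + z') = s1⁻¹ * m z + s1⁻¹ * m z'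
        rw [hmadd, mul_add]
      map_smul' := fun c z => by
        show s1⁻¹ * m (c • z) = c * (s1⁻¹ * m z)
        rw [hmsmul]
        ring } with hml
  set g : E n := (InnerProductSpace.toDual ℝ (E n)).symm (LinearMap.toContinuousLinearMap ml)
    with hg
  have hgz : ∀ z, inner ℝ g z = s1⁻¹ * m z := by
    intro z
    rw [hg, InnerProductSpace.toDual_symm_apply]
    rfl
  refine ⟨g, fun z z' => ?_⟩
  -- derivatives along `v ↦ (v, t v)`
  have hX : DifferentiableAt ℝ X u := (hC.XC1 u hu).differentiableAt one_ne_zero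
  have ht : DifferentiableAt ℝ t u := (hC.tC1 u hu).differentiableAt one_ne_zero
  have hpath : HasFDerivAt (fun v : E n => ((v, t v) : E n × ℝ))
      ((ContinuousLinearMap.id ℝ (E n)).prod (fderiv ℝ t u)) u :=
    (hasFDerivAt_id u).prodMk ht.hasFDerivAt
  have hkey : ∀ φ : E n → ℝ, Continuous φ → HasFDerivAt
      (fun v : E n => ∫ x in cap K v (t v), φ x)
      ((∫ y : WW e, DF K e φ (u, τ) (y : E n)).comp
        ((ContinuousLinearMap.id ℝ (E n)).prod (fderiv ℝ t u))) u := by
    intro φ hφ
    exact HasFDerivAt.comp (f := fun v : E n => ((v, t v) : E n × ℝ))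
      (g := fun p : E n × ℝ => ∫ x in cap K p.1 p.2, φ x) u
      (cap_fderiv hK he hφ (p := (u, τ)) hp hi).2 hpath
  -- volume
  have hvol : (∫ y : WW e, DF K e (fun _ => (1 : ℝ)) (u, τ) (y : E n)) (z', fderiv ℝ t u z') =
      0 := by
    have h1 := hkey (fun _ => 1) continuous_const
    have h2 : HasFDerivAt (fun v : E n => ∫ _x in cap K v (t v), (1 : ℝ)) (0 : E n →L[ℝ] ℝ) u := by
      refine (hasFDerivAt_const δ u).congr_of_eventuallyEq ?_
      filter_upwards [isOpen_compl_singleton.mem_nhds hu] with v hv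
      rw [← vol_eq_int, vol, h.tvol v hv, ENNReal.toReal_ofReal h.cs.dpos.le]
    have h3 := h1.unique h2
    have h4 := congrArg (fun L : E n →L[ℝ] ℝ => L z') h3
    simpa using h4
  have hmom : (∫ y : WW e, DF K e (fun x => inner ℝ z x) (u, τ) (y : E n))
      (z', fderiv ℝ t u z') = lam * inner ℝ z (fderiv ℝ X u z') := by
    have h1 := hkey (fun x => inner ℝ z x) (by fun_prop)
    have h2 : HasFDerivAt (fun v : E n => ∫ x in cap K v (t v), (inner ℝ z x : ℝ))
        (lam • (innerSL ℝ z).comp (fderiv ℝ X u)) u := by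
      have h3 : HasFDerivAt (fun v : E n => lam * inner ℝ z (X v))
          (lam • (innerSL ℝ z).comp (fderiv ℝ X u)) u :=
        ((innerSL ℝ z).hasFDerivAt.comp u hX.hasFDerivAt).const_mul lam
      refine h3.congr_of_eventuallyEq ?_
      filter_upwards [isOpen_compl_singleton.mem_nhds hu] with v hv
      have h4 : IntegrableOn (fun x : E n => x) (cap K v (t v)) :=
        (int_on hK.comp continuous_id).mono_set (cap_subset v _)
      rw [integral_inner h4, h.mom v hv, inner_smul_right]
    have h3 := h1.unique h2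
    have h4 := congrArg (fun L : E n →L[ℝ] ℝ => L z') h3
    simpa using h4
  set dt : ℝ := fderiv ℝ t u z' with hdt
  rw [DF_int hK he continuous_const hp hi] at hvol
  rw [DF_int hK he (by fun_prop) hp hi] at hmom
  -- the derivative of the level is given by `g`
  have h1 : m z' - dt * s1 = 0 := by
    rw [← hvol, hm, hs1, ← sec_mul dt, sub_eq_add_neg, ← neg_one_mul (sec _ _ _ _ _), ← sec_mul,
      ← sec_add hK.comp he (by fun_prop) (by fun_prop)]
    congr 1
    funext x
    ring
  have h2 : dt = inner ℝ g z' := by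
    rw [hgz]
    field_simp
    linarith
  rw [← hmom, h2]
  -- expand
  have h3 : sec K e (fun x => inner ℝ z' (x - g)) u τ = 0 := by
    have h4 : (fun x : E n => (inner ℝ z' (x - g) : ℝ)) =
        fun x => (inner ℝ z' x - dt) * 1 := by
      funext x
      rw [inner_sub_right, h2, real_inner_comm g z']
      ring
    rw [h4]
    exact hvol
  have h5 : (fun x : E n => (inner ℝ z' x - inner ℝ g z') * inner ℝ z x) =
      fun x => inner ℝ z (x - g) * inner ℝ z' (x - g) + inner ℝ z g * inner ℝ z' (x - g) := by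
    funext x
    rw [inner_sub_right, inner_sub_right, real_inner_comm g z']
    ring
  rw [h5, sec_add hK.comp he (by fun_prop) (by fun_prop), sec_mul, h3, mul_zero, add_zero]

end Pool.Agent.Helper79.MI
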