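import Pool.Agent.Helper79.MI.Prp

/-!
# The minimum is attained (project MP_a2630c_MI, module ATT)
-/

open MeasureTheory Set Metric Real Filter Topology
open scoped RealInnerProductSpace ENNReal

set_option linter.unusedSectionVars false

universe w

namespace Pool.Agent.Helper79.MI

open Pool.Agent.Helper73.MI

section

variable {V : Type w} [NormedAddCommGroup V] [InnerProductSpace ℝ V]
    [FiniteDimensional ℝ V] [MeasurableSpace V] [BorelSpace V] {D : Set V} {F : V → ℝ} {Y : V → V}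
    {ξ τ : V → ℝ} {P : V → V →L[ℝ] V} {lam : ℝ} {vv : V → V} {Pi : V → V →L[ℝ] V}

theorem nn_pos' (v : V) : 0 < nn v := by
  unfold nn
  exact Real.sqrt_pos.2 (by positivity)

theorem norm_le_nn (v : V) : ‖v‖ ≤ nn v := by
  unfold nn
  apply Real.le_sqrt_of_sq_le
  linarith

theorem sv_vol (h : MD D F Y ξ τ P lam) (v : V) : volume (Sv F τ v) < ⊤ :=
  (h.Dbdd.subset (sv_sub h v)).measure_lt_top

/-- (ATT) The minimum is attained. -/
theorem att (hcsi : S_csi.{w}) (hbd : S_bd.{w}) : S_att.{w} := by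
  intro V _ _ _ _ _ D F Y ξ τ P lam vv Pi h hI a
  obtain ⟨C, hC0, hC1, hC2, hC3⟩ := hbd h hI
  obtain ⟨C', hC'⟩ := h.svol
  obtain ⟨Q, c, hQc, hQD, hc, hlow⟩ := h.low
  set q : V → ℝ := QQ ξ Pi a with hq
  have hqc : Continuous q := QQ_cont h hI a
  have hQm : MeasurableSet Q := hQc.measurableSet
  -- notation
  set N : V → ℝ := fun v => ∫ y in Sv F τ v, Wf F τ v y with hN
  have hNpos : ∀ v, 0 < N v := by
    intro v
    rw [hN]
    simp only
    rw [← h.mom v]
    exact mul_pos (mul_pos two_pos h.lpos) (h.xpos v)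
  have hC'0 : 0 ≤ C' := (mul_nonneg (nn_pos' (0 : V)).le ENNReal.toReal_nonneg).trans (hC' 0)
  have hvol : ∀ v, (volume (Sv F τ v)).toReal ≤ C' / nn v := by
    intro v
    rw [le_div_iff₀ (nn_pos' v), mul_comm]
    exact hC' v
  have hlow' : ∀ v, c / nn v ≤ ∫ y in Sv F τ v ∩ Q, Wf F τ v y := by
    intro v
    rw [div_le_iff₀ (nn_pos' v), mul_comm]
    exact hlow v
  have hWle : ∀ v y, Wf F τ v y ≤ F y := by
    intro v y
    unfold Wf
    have := sq_nonneg (τ v - inner ℝ v y)
    linarith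
  have hQN : ∀ v, ∫ y in Sv F τ v ∩ Q, Wf F τ v y ≤ N v := by
    intro v
    apply setIntegral_mono_set (wf_int h v)
    · exact (ae_restrict_iff' (sv_open h v).measurableSet).2
        (Filter.Eventually.of_forall fun y hy => le_of_lt hy)
    · exact Filter.Eventually.of_forall inter_subset_left
  -- upper bound of `N`
  have hNup : ∀ v, N v ≤ C * (C' / nn v) := by
    intro v
    have h1 : N v ≤ ∫ _y in Sv F τ v, C := by
      apply setIntegral_mono_on (wf_int h v) _ (sv_open h v).measurableSet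
      · intro y _
        exact (hWle v y).trans (hC3 y)
      · exact integrableOn_const (sv_vol h v).ne
    rw [setIntegral_const, smul_eq_mul, mul_comm] at h1
    exact h1.trans (mul_le_mul_of_nonneg_left (hvol v) hC0.le)
  -- bound of `F q`
  set C1 : ℝ := 2 * C ^ 2 * ‖a‖ ^ 2 + 2 * C * ‖a‖ ^ 2 with hC1def
  have hC1nn : 0 ≤ C1 := by positivity
  have hFq : ∀ v, ξ v ^ 2 * |q v| ≤ C1 := by
    intro v
    have hx := h.xpos v
    have h1 : |q v| ≤ 2 * (‖v‖ * ‖a‖) ^ 2 + 2 * ξ v * (‖Pi v‖ * ‖a‖ * ‖a‖) := by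
      rw [hq]
      unfold QQ
      refine (abs_sub _ _).trans ?_
      have h2 : |2 * (inner ℝ v a : ℝ) ^ 2| ≤ 2 * (‖v‖ * ‖a‖) ^ 2 := by
        rw [abs_mul, abs_two, abs_pow]
        apply mul_le_mul_of_nonneg_left _ two_pos.le
        exact pow_le_pow_left₀ (abs_nonneg _) (abs_real_inner_le_norm _ _) 2
      have h3 : |2 * ξ v * (inner ℝ (Pi v a) a : ℝ)| ≤ 2 * ξ v * (‖Pi v‖ * ‖a‖ * ‖a‖) := by
        rw [abs_mul, abs_of_pos (by positivity : (0 : ℝ) < 2 * ξ v)]
        apply mul_le_mul_of_nonneg_left _ (by positivity)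
        refine (abs_real_inner_le_norm _ _).trans ?_
        exact mul_le_mul_of_nonneg_right ((Pi v).le_opNorm a) (norm_nonneg _)
      linarith
    have h4 : ξ v * ‖v‖ ≤ C := (mul_le_mul_of_nonneg_left (norm_le_nn v) hx.le).trans (hC1 v)
    have h5 : (ξ v * ‖v‖) ^ 2 ≤ C ^ 2 := pow_le_pow_left₀ (by positivity) h4 2
    calc ξ v ^ 2 * |q v| ≤ ξ v ^ 2 * (2 * (‖v‖ * ‖a‖) ^ 2 + 2 * ξ v * (‖Pi v‖ * ‖a‖ * ‖a‖)) :=
          mul_le_mul_of_nonneg_left h1 (by positivity)
      _ = 2 * (ξ v * ‖v‖) ^ 2 * ‖a‖ ^ 2 + 2 * (ξ v ^ 3 * ‖Pi v‖) * ‖a‖ ^ 2 := by ring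
      _ ≤ 2 * C ^ 2 * ‖a‖ ^ 2 + 2 * C * ‖a‖ ^ 2 := by
          have h6 := mul_le_mul_of_nonneg_right h5 (sq_nonneg ‖a‖)
          have h7 := mul_le_mul_of_nonneg_right (hC2 v) (sq_nonneg ‖a‖)
          nlinarith
  have hWq : ∀ v, ∀ y ∈ Sv F τ v, |Wf F τ v y * q (vv y)| ≤ C1 := by
    intro v y hy
    have hy0 : 0 < Wf F τ v y := hy
    have hyD := sv_sub h v hy
    have h1 := hFq (vv y)
    rw [← h.FY, hI.right y hyD] at h1
    rw [abs_mul, abs_of_pos hy0]
    exact (mul_le_mul_of_nonneg_right (hWle v y) (abs_nonneg _)).trans h1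
  -- lower bound of `q`
  have hlb : ∀ v, -(C1 * C' / c) ≤ q v := by
    intro v
    by_contra hcon
    push Not at hcon
    have hqneg : q v < 0 := by
      have : 0 ≤ C1 * C' / c := by positivity
      linarith
    have h1 := (hcsi h hI a v).2
    have h2 : |∫ y in Sv F τ v, Wf F τ v y * q (vv y)| ≤ C1 * (volume (Sv F τ v)).toReal := by
      have h3 := norm_setIntegral_le_of_norm_le_const (f := fun y => Wf F τ v y * q (vv y))
        (C := C1) (sv_vol h v) (fun y hy => hWq v y hy)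
      exact h3
    have h3 : -(C1 * (C' / nn v)) ≤ q v * N v := by
      have h4 := (abs_le.1 h2).1
      have h5 : C1 * (volume (Sv F τ v)).toReal ≤ C1 * (C' / nn v) :=
        mul_le_mul_of_nonneg_left (hvol v) hC1nn
      have h6 : ∫ y in Sv F τ v, Wf F τ v y * q (vv y) ≤ q v * N v := h1
      linarith
    have h4 : q v * N v ≤ q v * (c / nn v) :=
      mul_le_mul_of_nonpos_left ((hlow' v).trans (hQN v)) hqneg.le
    have h5 : q v * (c / nn v) < -(C1 * C' / c) * (c / nn v) :=
      mul_lt_mul_of_pos_right hcon (div_pos hc (nn_pos' v))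
    have h6 : -(C1 * C' / c) * (c / nn v) = -(C1 * (C' / nn v)) := by
      have := (nn_pos' v).ne'
      field_simp
    rw [h6] at h5
    linarith
  -- infimum
  have hbdd : BddBelow (range q) := ⟨-(C1 * C' / c), by
    rintro _ ⟨v, rfl⟩
    exact hlb v⟩
  set m : ℝ := ⨅ v, q v with hm
  have hmle : ∀ v, m ≤ q v := fun v => ciInf_le hbdd v
  -- the compact set
  have hQne : Q.Nonempty := by
    by_contra hne
    rw [not_nonempty_iff_eq_empty] at hne
    have h1 := hlow' 0
    rw [hne, inter_empty, setIntegral_empty] at h1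
    have := div_pos hc (nn_pos' (0 : V))
    linarith
  have hvvc : ContinuousOn (fun y => q (vv y)) Q := by
    intro y hy
    apply ContinuousAt.continuousWithinAt
    exact (hqc.continuousAt (x := vv y)).comp (vv_contOn hI (hQD hy))
  obtain ⟨y0, hy0, hmin⟩ := hQc.exists_isMinOn hQne hvvc
  set mQ : ℝ := q (vv y0) with hmQ
  have hmmQ : m ≤ mQ := hmle _
  refine ⟨vv y0, fun v => ?_⟩
  show mQ ≤ q v
  refine le_trans ?_ (hmle v)
  -- `θ`
  set θ : ℝ := c / (C * (C' + 1)) with hθ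
  have hθpos : 0 < θ := by positivity
  have hθN : ∀ v, θ * N v ≤ ∫ y in Sv F τ v ∩ Q, Wf F τ v y := by
    intro v
    refine le_trans ?_ (hlow' v)
    have h1 : θ * N v ≤ θ * (C * (C' / nn v)) := mul_le_mul_of_nonneg_left (hNup v) hθpos.le
    refine h1.trans ?_
    rw [hθ]
    have h2 := nn_pos' v
    have h3 : c / (C * (C' + 1)) * (C * (C' / nn v)) = c / nn v * (C' / (C' + 1)) := by
      field_simp
    rw [h3]
    have h4 : C' / (C' + 1) ≤ 1 := (div_le_one (by linarith)).2 (by linarith)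
    have h5 : 0 < c / nn v := div_pos hc h2
    nlinarith
  have hkey : ∀ v, m + (mQ - m) * θ ≤ q v := by
    intro v
    have hSm := (sv_open h v).measurableSet
    have hWi := wf_int h v
    have h1 : ∫ y in Sv F τ v, (m * Wf F τ v y + (mQ - m) * Q.indicator (Wf F τ v) y) ≤
        ∫ y in Sv F τ v, Wf F τ v y * q (vv y) := by
      apply setIntegral_mono_on _ (hcsi h hI a v).1 hSm
      · intro y hy
        have hy1 : 0 < Wf F τ v y := hy
        by_cases hyQ : y ∈ Q
        · rw [indicator_of_mem hyQ]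
          have h2 : mQ ≤ q (vv y) := hmin hyQ
          have h3 := mul_le_mul_of_nonneg_left h2 hy1.le
          linarith
        · rw [indicator_of_notMem hyQ]
          have h2 := mul_le_mul_of_nonneg_left (hmle (vv y)) hy1.le
          linarith
      · exact (hWi.const_mul m).add ((hWi.indicator hQm).const_mul (mQ - m))
    rw [integral_add (hWi.const_mul m) ((hWi.indicator hQm).const_mul (mQ - m)),
      integral_const_mul, integral_const_mul, setIntegral_indicator hQm] at h1
    have h2 : ∫ y in Sv F τ v, Wf F τ v y * q (vv y) ≤ q v * N v := (hcsi h hI a v).2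
    have h3 : (mQ - m) * (θ * N v) ≤ (mQ - m) * ∫ y in Sv F τ v ∩ Q, Wf F τ v y :=
      mul_le_mul_of_nonneg_left (hθN v) (by linarith)
    have h4 : (m + (mQ - m) * θ) * N v ≤ q v * N v := by
      have h5 : m * N v + (mQ - m) * ∫ y in Sv F τ v ∩ Q, Wf F τ v y ≤ q v * N v := h1.trans h2
      linarith
    exact le_of_mul_le_mul_right h4 (hNpos v)
  have h1 : m + (mQ - m) * θ ≤ m := le_ciInf hkey
  by_contra hcon
  push Not at hcon
  have h2 : 0 < (mQ - m) * θ := mul_pos (by linarith) hθpos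
  linarith

end

end Pool.Agent.Helper79.MI
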