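import Pool.Agent.Helper73.MI.Stmts

/-!
# Propagation of the minimum (project MP_a2630c_MI, module PRP)
-/

open MeasureTheory Set Metric Real Filter Topology
open scoped RealInnerProductSpace ENNReal

set_option linter.unusedSectionVars false

universe w

namespace Pool.Agent.Helper79.MI

open Pool.Agent.Helper73.MI

section

variable {V : Type w} [NormedAddCommGroup V] [InnerProductSpace ℝ V]
    [FiniteDimensional ℝ V] [MeasurableSpace V] [BorelSpace V] {D : Set V} {F : V → ℝ} {Y : V → V}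
    {ξ τ : V → ℝ} {P : V → V →L[ℝ] V} {lam : ℝ} {vv : V → V} {Pi : V → V →L[ℝ] V}

theorem md_xcont (h : MD D F Y ξ τ P lam) : Continuous ξ :=
  continuous_iff_continuousAt.2 fun v => (h.xder v).continuousAt

theorem md_Ycont (h : MD D F Y ξ τ P lam) : Continuous Y :=
  continuous_iff_continuousAt.2 fun v => (h.Yder v).continuousAt

theorem QQ_cont (h : MD D F Y ξ τ P lam) (hI : INV D Y P vv Pi) (a : V) :
    Continuous (QQ ξ Pi a) := by
  have h1 := md_xcont h
  have h2 : Continuous fun v => Pi v a := hI.Pic.clm_apply continuous_const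
  unfold QQ
  fun_prop

theorem vv_contOn (hI : INV D Y P vv Pi) {y : V} (hy : y ∈ D) : ContinuousAt vv y := by
  have h1 := (hI.der (vv y)).continuousAt
  rwa [hI.right y hy] at h1

theorem wf_cont (h : MD D F Y ξ τ P lam) (v : V) : Continuous fun y => Wf F τ v y := by
  have h1 := h.Fcont
  unfold Wf
  fun_prop

theorem sv_open (h : MD D F Y ξ τ P lam) (v : V) : IsOpen (Sv F τ v) :=
  isOpen_lt continuous_const (wf_cont h v)

theorem sv_sub (h : MD D F Y ξ τ P lam) (v : V) : Sv F τ v ⊆ D := by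
  intro y hy
  by_contra hn
  have h1 : 0 < Wf F τ v y := hy
  unfold Wf at h1
  rw [h.Fzero y hn] at h1
  have := sq_nonneg (τ v - inner ℝ v y)
  linarith

theorem wf_int (h : MD D F Y ξ τ P lam) (v : V) :
    IntegrableOn (fun y => Wf F τ v y) (Sv F τ v) := by
  by_contra hn
  have h1 := h.mom v
  rw [integral_undef hn] at h1
  have h2 := mul_pos (mul_pos two_pos h.lpos) (h.xpos v)
  linarith

/-- `Y v'` lies in the section of `v`. -/
theorem mem_sv (h : MD D F Y ξ τ P lam) {v v' : V}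
    (ha : 0 < ξ v' + inner ℝ v (Y v') - τ v) (hb : 0 < τ v - inner ℝ v (Y v') + ξ v') :
    Y v' ∈ Sv F τ v := by
  show 0 < F (Y v') - (τ v - inner ℝ v (Y v')) ^ 2
  rw [h.FY]
  have h1 : ξ v' ^ 2 - (τ v - inner ℝ v (Y v')) ^ 2 =
      (ξ v' + inner ℝ v (Y v') - τ v) * (τ v - inner ℝ v (Y v') + ξ v') := by ring
  rw [h1]
  exact mul_pos ha hb

/-- The minimum spreads over the sections. -/
theorem spread (hcsi : S_csi.{w}) (h : MD D F Y ξ τ P lam) (hI : INV D Y P vv Pi) {a v v' : V}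
    (hmin : ∀ u, QQ ξ Pi a v ≤ QQ ξ Pi a u) (hv' : Y v' ∈ Sv F τ v) :
    QQ ξ Pi a v' = QQ ξ Pi a v := by
  obtain ⟨hi, hle⟩ := hcsi h hI a v
  set S := Sv F τ v with hS
  set m := QQ ξ Pi a v with hm
  set f : V → ℝ := fun y => Wf F τ v y * QQ ξ Pi a (vv y) - m * Wf F τ v y with hf
  have hfi : IntegrableOn f S := hi.sub ((wf_int h v).const_mul m)
  have hf0 : ∀ y ∈ S, 0 ≤ f y := by
    intro y hy
    have h1 : 0 < Wf F τ v y := hy
    have h2 := hmin (vv y)
    rw [hf]
    simp only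
    nlinarith
  have hint : ∫ y in S, f y ≤ 0 := by
    rw [hf, integral_sub hi ((wf_int h v).const_mul m), integral_const_mul]
    linarith
  have hSm := (sv_open h v).measurableSet
  have hf0' : 0 ≤ᵐ[volume.restrict S] f :=
    (ae_restrict_iff' hSm).2 (Filter.Eventually.of_forall hf0)
  have hz : ∫ y in S, f y = 0 := le_antisymm hint (integral_nonneg_of_ae hf0')
  have hae : f =ᵐ[volume.restrict S] fun _ => (0 : ℝ) :=
    (integral_eq_zero_iff_of_nonneg_ae hf0' hfi).1 hz
  have hcont : ContinuousOn f S := by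
    intro y hy
    apply ContinuousAt.continuousWithinAt
    have h1 : ContinuousAt (fun y => QQ ξ Pi a (vv y)) y :=
      ((QQ_cont h hI a).continuousAt (x := vv y)).comp (vv_contOn hI (sv_sub h v hy))
    have h2 : ContinuousAt (fun y => Wf F τ v y) y := (wf_cont h v).continuousAt
    exact (h2.mul h1).sub (continuousAt_const.mul h2)
  have heq := Measure.eqOn_open_of_ae_eq hae (sv_open h v) hcont continuousOn_const
  have h3 := heq hv'
  have h4 : 0 < Wf F τ v (Y v') := hv'
  rw [hf] at h3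
  simp only [hI.left] at h3
  have h5 : Wf F τ v (Y v') * (QQ ξ Pi a v' - m) = 0 := by linarith
  rcases mul_eq_zero.1 h5 with h6 | h6
  · exact (h4.ne' h6).elim
  · linarith

/-- (PRP) The second derivative in the direction `a` is constant. -/
theorem prp (hcsi : S_csi.{w}) (hatt : S_att.{w}) : S_prp.{w} := by
  intro V _ _ _ _ _ D F Y ξ τ P lam vv Pi h hI a v
  obtain ⟨v0, hv0⟩ := hatt h hI a
  set q : V → ℝ := QQ ξ Pi a with hq
  set m := q v0 with hm
  have hqc : Continuous q := QQ_cont h hI a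
  have hxc := md_xcont h
  have hYc := md_Ycont h
  have htc := h.tcont
  set Z : Set V := {u | q u = m} with hZ
  have hZc : IsClosed Z := isClosed_eq hqc continuous_const
  have hspread : ∀ u ∈ Z, ∀ u', Y u' ∈ Sv F τ u → u' ∈ Z := by
    intro u hu u' hu'
    have hu1 : q u = m := hu
    have h1 := spread hcsi h hI (a := a) (v := u) (v' := u')
      (fun z => by rw [← hq, hu1]; exact hv0 z) hu'
    show q u' = m
    rw [← hu1]
    exact h1
  -- step 1
  have hZ0 : (0 : V) ∈ Z := by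
    obtain ⟨z, hz, hzd⟩ := hZc.exists_infDist_eq_dist ⟨v0, show q v0 = m from rfl⟩ (0 : V)
    by_cases hz0 : z = 0
    · rwa [← hz0]
    exfalso
    set A : Set ℝ := {r | 0 < ξ (r • z) + inner ℝ z (Y (r • z)) - τ z} with hA
    set B : Set ℝ := {r | 0 < τ z - inner ℝ z (Y (r • z)) + ξ (r • z)} with hB
    have hAo : IsOpen A := isOpen_lt continuous_const (by fun_prop)
    have hBo : IsOpen B := isOpen_lt continuous_const (by fun_prop)
    have hA1 : (1 : ℝ) ∈ A := by
      show 0 < ξ ((1 : ℝ) • z) + inner ℝ z (Y ((1 : ℝ) • z)) - τ z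
      rw [one_smul]
      have := h.tup z
      linarith
    have hB1 : (-1 : ℝ) ∈ B := by
      show 0 < τ z - inner ℝ z (Y ((-1 : ℝ) • z)) + ξ ((-1 : ℝ) • z)
      rw [neg_one_smul]
      have := h.tlo z
      rw [inner_neg_left] at this
      linarith
    have hcov : Ioo (-1 : ℝ) 1 ⊆ A ∪ B := by
      intro r _
      by_contra hn
      rw [mem_union, not_or] at hn
      have h1 : ¬ 0 < ξ (r • z) + inner ℝ z (Y (r • z)) - τ z := hn.1
      have h2 : ¬ 0 < τ z - inner ℝ z (Y (r • z)) + ξ (r • z) := hn.2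
      have h3 := h.xpos (r • z)
      push Not at h1 h2
      linarith
    have hne1 : (Ioo (-1 : ℝ) 1 ∩ A).Nonempty := by
      have h1 : A ∈ 𝓝[<] (1 : ℝ) := mem_nhdsWithin_of_mem_nhds (hAo.mem_nhds hA1)
      have h2 : Ioo (-1 : ℝ) 1 ∈ 𝓝[<] (1 : ℝ) := Ioo_mem_nhdsLT (by norm_num)
      exact Filter.nonempty_of_mem (Filter.inter_mem h2 h1)
    have hne2 : (Ioo (-1 : ℝ) 1 ∩ B).Nonempty := by
      have h1 : B ∈ 𝓝[>] (-1 : ℝ) := mem_nhdsWithin_of_mem_nhds (hBo.mem_nhds hB1)
      have h2 : Ioo (-1 : ℝ) 1 ∈ 𝓝[>] (-1 : ℝ) := Ioo_mem_nhdsGT (by norm_num)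
      exact Filter.nonempty_of_mem (Filter.inter_mem h2 h1)
    obtain ⟨r, hr, hrA, hrB⟩ := isPreconnected_Ioo A B hAo hBo hcov hne1 hne2
    have hrZ : r • z ∈ Z := hspread z hz _ (mem_sv h hrA hrB)
    have h1 := infDist_le_dist_of_mem (x := (0 : V)) hrZ
    rw [hzd, dist_zero_left, dist_zero_left, norm_smul, Real.norm_eq_abs] at h1
    have h2 : |r| < 1 := abs_lt.2 hr
    have h3 : 0 < ‖z‖ := norm_pos_iff.2 hz0
    nlinarith
  -- step 2
  have hloc : ∀ (z : V) (x : ℝ), 0 ≤ x → (∀ ρ ∈ Icc (-x) x, ρ • z ∈ Z) →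
      ∀ᶠ r in 𝓝 x, r • z ∈ Z := by
    intro z x hx hxZ
    have e1 : ∀ᶠ r in 𝓝 x, 0 < ξ (r • z) + inner ℝ (x • z) (Y (r • z)) - τ (x • z) := by
      have hc : Continuous fun r : ℝ => ξ (r • z) + inner ℝ (x • z) (Y (r • z)) - τ (x • z) := by
        fun_prop
      refine continuousAt_const.eventually_lt hc.continuousAt ?_
      have := h.tup (x • z)
      linarith
    have e2 : ∀ᶠ r in 𝓝 x, 0 < τ ((-x) • z) - inner ℝ ((-x) • z) (Y (r • z)) + ξ (r • z) := by
      have hc : Continuous fun r : ℝ =>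
          τ ((-x) • z) - inner ℝ ((-x) • z) (Y (r • z)) + ξ (r • z) := by
        fun_prop
      refine continuousAt_const.eventually_lt hc.continuousAt ?_
      have := h.tlo ((-x) • z)
      rw [neg_smul, neg_neg] at this
      rw [neg_smul, inner_neg_left]
      linarith
    filter_upwards [e1, e2] with r hr1 hr2
    set A : Set ℝ := {ρ | 0 < ξ (r • z) + inner ℝ (ρ • z) (Y (r • z)) - τ (ρ • z)} with hA
    set B : Set ℝ := {ρ | 0 < τ (ρ • z) - inner ℝ (ρ • z) (Y (r • z)) + ξ (r • z)} with hB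
    have hAo : IsOpen A := isOpen_lt continuous_const (by fun_prop)
    have hBo : IsOpen B := isOpen_lt continuous_const (by fun_prop)
    have hcov : Icc (-x) x ⊆ A ∪ B := by
      intro ρ _
      by_contra hn
      rw [mem_union, not_or] at hn
      have h1 : ¬ 0 < ξ (r • z) + inner ℝ (ρ • z) (Y (r • z)) - τ (ρ • z) := hn.1
      have h2 : ¬ 0 < τ (ρ • z) - inner ℝ (ρ • z) (Y (r • z)) + ξ (r • z) := hn.2
      have h3 := h.xpos (r • z)
      push Not at h1 h2
      linarith
    obtain ⟨ρ, hρ, hρA, hρB⟩ := isPreconnected_Icc A B hAo hBo hcov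
      ⟨x, ⟨by linarith, le_rfl⟩, hr1⟩ ⟨-x, ⟨le_rfl, by linarith⟩, hr2⟩
    exact hspread _ (hxZ ρ hρ) _ (mem_sv h hρA hρB)
  have hall : ∀ z : V, z ∈ Z := by
    intro z
    set s : Set ℝ := {R | ∀ θ ∈ Icc (-1 : ℝ) 1, (θ * R) • z ∈ Z} with hs
    have hsc : IsClosed s := by
      have h1 : s = ⋂ θ ∈ Icc (-1 : ℝ) 1, {R : ℝ | (θ * R) • z ∈ Z} := by
        ext R
        simp only [mem_iInter]
        rfl
      rw [h1]
      refine isClosed_biInter fun θ _ => ?_
      exact hZc.preimage (by fun_prop : Continuous fun R : ℝ => (θ * R) • z)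
    have hs0 : (0 : ℝ) ∈ s := by
      intro θ _
      rw [mul_zero, zero_smul]
      exact hZ0
    have hsub : Icc (0 : ℝ) 1 ⊆ s := by
      apply (hsc.inter isClosed_Icc).Icc_subset_of_forall_exists_gt hs0
      rintro x ⟨hxs, hx0, hx1⟩ y hy
      have hxZ : ∀ ρ ∈ Icc (-x) x, ρ • z ∈ Z := by
        intro ρ hρ
        rcases eq_or_lt_of_le hx0 with hx | hx
        · have : ρ = 0 := by
            rw [← hx, neg_zero] at hρ
            exact le_antisymm hρ.2 hρ.1
          rw [this, zero_smul]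
          exact hZ0
        · have h1 := hxs (ρ / x) ⟨by rw [le_div_iff₀ hx]; linarith [hρ.1], by
            rw [div_le_one hx]; exact hρ.2⟩
          rwa [div_mul_cancel₀ _ hx.ne'] at h1
      have hxZ' : ∀ ρ ∈ Icc (-x) x, ρ • (-z) ∈ Z := by
        intro ρ hρ
        rw [smul_neg, ← neg_smul]
        exact hxZ (-ρ) ⟨by linarith [hρ.2], by linarith [hρ.1]⟩
      obtain ⟨ε, hε, hball⟩ := Metric.eventually_nhds_iff_ball.1
        ((hloc z x hx0 hxZ).and (hloc (-z) x hx0 hxZ'))
      have hy' : x < y := hy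
      refine ⟨min y (x + ε / 2), ?_, lt_min hy' (by linarith), min_le_left _ _⟩
      intro θ hθ
      set R := min y (x + ε / 2) with hR
      have hRx : x < R := lt_min hy' (by linarith)
      have hRε : R < x + ε := (min_le_right _ _).trans_lt (by linarith)
      have hθR : |θ * R| ≤ R := by
        rw [abs_mul, abs_of_pos (lt_of_le_of_lt hx0 hRx)]
        have h1 : |θ| ≤ 1 := abs_le.2 hθ
        have h2 : 0 < R := lt_of_le_of_lt hx0 hRx
        nlinarith
      rcases le_or_gt (|θ * R|) x with h1 | h1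
      · exact hxZ _ (abs_le.1 h1)
      · have h2 : |θ * R| ∈ ball x ε := by
          rw [Metric.mem_ball, Real.dist_eq, abs_lt]
          constructor <;> linarith
        obtain ⟨h3, h4⟩ := hball _ h2
        rcases le_total 0 (θ * R) with h5 | h5
        · rwa [abs_of_nonneg h5] at h3
        · rw [abs_of_nonpos h5, smul_neg, neg_smul, neg_neg] at h4
          exact h4
    have h1 := hsub (right_mem_Icc.2 zero_le_one) 1 ⟨by norm_num, le_rfl⟩
    rwa [mul_one, one_smul] at h1
  have h1 : q v = m := hall v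
  have h2 : q 0 = m := hall 0
  rw [h1, h2]

end

end Pool.Agent.Helper79.MI
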